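import Pool.Agent.helper37.NG.Spec

set_option autoImplicit false

namespace Pool.Agent.helper37.NG

open Finset Pool.Agent.NK Pool.Agent.helper37.NF

theorem RE3_nat (i : ℕ) : c3 (i + 1) * ((2 * i + 1) * (2 * i + 2)) = 3 * (3 * i + 1) * (3 * i + 2) * c3 i := by
  unfold c3
  have h1 := Nat.choose_mul_factorial_mul_factorial (show i + 1 ≤ 3 * (i + 1) by omega)
  have h2 := Nat.choose_mul_factorial_mul_factorial (show i ≤ 3 * i by omega)
  have e1 : 3 * (i + 1) - (i + 1) = 2 * i + 1 + 1 := by omega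
  have e2 : 3 * i - i = 2 * i := by omega
  have e3 : (3 * (i + 1)).factorial = (3 * i + 3) * ((3 * i + 2) * ((3 * i + 1) * (3 * i).factorial)) := by
    have : 3 * (i + 1) = 3 * i + 1 + 1 + 1 := by omega
    rw [this, Nat.factorial_succ, Nat.factorial_succ, Nat.factorial_succ]
  rw [e1, e3, Nat.factorial_succ i, Nat.factorial_succ (2 * i + 1), Nat.factorial_succ (2 * i), ← h2, e2] at h1
  have hpos : 0 < (i + 1) * (i.factorial * (2 * i).factorial) :=
    Nat.mul_pos (Nat.succ_pos i) (Nat.mul_pos (Nat.factorial_pos _) (Nat.factorial_pos _))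
  apply Nat.eq_of_mul_eq_mul_right hpos
  calc (3 * (i + 1)).choose (i + 1) * ((2 * i + 1) * (2 * i + 2)) * ((i + 1) * (i.factorial * (2 * i).factorial))
      = (3 * (i + 1)).choose (i + 1) * ((i + 1) * i.factorial) *
        ((2 * i + 1 + 1) * ((2 * i + 1) * (2 * i).factorial)) := by ring
    _ = _ := h1
    _ = _ := by ring

theorem RE3 : RE3_stmt := by
  intro i
  have h := RE3_nat i
  have h' : (c3 (i + 1) : ℝ) * ((2 * i + 1) * (2 * i + 2)) = 3 * (3 * i + 1) * (3 * i + 2) * c3 i := by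
    exact_mod_cast h
  unfold sig
  have hne : ((2 * (i : ℝ) + 1) * (2 * i + 2)) ≠ 0 := by positivity
  rw [div_mul_eq_mul_div, eq_div_iff hne]
  exact h'

end Pool.Agent.helper37.NG
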